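import Pool.Agent.Run7.h446.Smyth.MultFinal
import Pool.Agent.Run7.h446.Smyth.Asm
import Pool.Agent.Run7.h446.Smyth.SysC
import Pool.Agent.Run7.h24.Smyth_GAUSS
import Pool.Agent.Run7.h24.Smyth_COUNT
import Pool.Agent.Run7.h24.Smyth_CENTER
import Pool.Agent.Run7.h704.Smyth_NEAR
import Pool.Agent.Run7.h688.Smyth_PUSH
import Pool.Agent.Run7.h688.Smyth_FIN
import Pool.Agent.Run7.h688.Smyth_INDEP
import Pool.Agent.Run7.h688.Smyth_CONJ
import Pool.Agent.Run7.h364.Smyth_PERM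
import Pool.Agent.Run7.h364.Smyth_POLY
import Pool.Agent.Run7.h364.Smyth_MULT
import Pool.Agent.Run7.h364.Smyth_MNEC

/-!
# MP_e29efe_nt: multiplicative relations among conjugates of an algebraic number

Smyth's converse: if `b ∈ ℤ^d` has coprime entries and satisfies neither (A) nor (B), then the
relation `α_1^{b_1} ⋯ α_d^{b_d} = 1` has a solution in conjugates of an algebraic number which is
not a root of unity.  For arbitrary `b` the exact condition is: neither (A) nor (B'), where (B') is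
(B) with a prime power in place of the prime.
-/

set_option autoImplicit false

namespace Pool.Agent.Results.MP_e29efe_nt.SmythConverse

/-- (A): there is an index `i` with `|b_i| > ∑_{j ≠ i} |b_j|`. -/
def CondA {d : ℕ} (b : Fin d → ℤ) : Prop :=
  ∃ i, ∑ j ∈ Finset.univ.erase i, |b j| < |b i|

/-- (B): there are an index `i` and a prime `p` with `p ∤ b_i` and `p ∣ b_j` for all `j ≠ i`. -/
def CondB {d : ℕ} (b : Fin d → ℤ) : Prop :=
  ∃ (i : Fin d) (p : ℕ), p.Prime ∧ ¬ ((p : ℤ) ∣ b i) ∧ ∀ j, j ≠ i → (p : ℤ) ∣ b j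

/-- (B'): there are an index `i` and a prime power `p^k` with `p^k ∤ b_i` and `p^k ∣ b_j` for all
`j ≠ i`. -/
def CondB' {d : ℕ} (b : Fin d → ℤ) : Prop :=
  ∃ (i : Fin d) (p k : ℕ), p.Prime ∧ ¬ ((p : ℤ) ^ k ∣ b i) ∧ ∀ j, j ≠ i → (p : ℤ) ^ k ∣ b j

/-- `(R_b)` has a solution in which `α` is not a root of unity: a nonzero algebraic number `α`,
not a root of unity, and complex roots `c 0 = α, c 1, …, c (d-1)` (repetitions allowed) of its
minimal polynomial over `ℚ` with `∏ (c i)^{b_i} = 1`. -/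
def HasSol {d : ℕ} (b : Fin d → ℤ) : Prop :=
  ∃ α : ℂ, α ≠ 0 ∧ IsAlgebraic ℚ α ∧ (∀ k : ℕ, 0 < k → α ^ k ≠ 1) ∧
    ∃ c : Fin d → ℂ, (∀ i : Fin d, (i : ℕ) = 0 → c i = α) ∧
      (∀ i, Polynomial.aeval (c i) (minpoly ℚ α) = 0) ∧ ∏ i, c i ^ b i = 1

theorem result :
    (∀ (d : ℕ) (b : Fin d → ℤ), 1 ≤ d → (∀ p : ℕ, p.Prime → ∃ i, ¬ ((p : ℤ) ∣ b i)) →
      ¬ CondA b → ¬ CondB b → HasSol b) ∧
    (∀ (d : ℕ) (b : Fin d → ℤ), 1 ≤ d → (HasSol b ↔ ¬ CondA b ∧ ¬ CondB' b)) ∧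
    (¬ CondA ![2, 4, 4] ∧ ¬ CondB ![2, 4, 4] ∧ ¬ HasSol ![2, 4, 4]) := by
  have hcount := Pool.Agent.Run7.h24.SmythCount.main Pool.Agent.Run7.h24.SmythGauss.main
  have hcenter := Pool.Agent.Run7.h24.SmythCenter.main
  have hnear := Pool.Agent.Run7.h704.SmythNEAR.main Pool.Agent.Run7.h24.SmythGauss.main hcount
  have hpush := Pool.Agent.Run7.h688.SmythPUSH.main hcount hcenter
  have hfin := Pool.Agent.Run7.h688.SmythFIN.main hcount
  have hasm := Pool.Agent.Run7.h446.Smyth.Asm.main hnear hcount hcenter hpush hfin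
  have hsys := Pool.Agent.Run7.h446.Smyth.SysP.main Run7.h364.Smyth_POLY.main
    Pool.Agent.Run7.h688.SmythINDEP.main Pool.Agent.Run7.h688.SmythCONJ.main
  exact Pool.Agent.Run7.h446.Smyth.Mult.final hasm Run7.h364.Smyth_PERM.main hsys
    Run7.h364.Smyth_MULT.main Run7.h364.Smyth_MNEC.main

end Pool.Agent.Results.MP_e29efe_nt.SmythConverse
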